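import Mathlib

/-!
# Shelah's class: structures, closures, extensions

Semantic core of the periodicity theorem for sentences `∃* ∀ ∃* ψ` with exactly one unary function symbol.
-/

set_option autoImplicit false

namespace Pool.Agent.Helper74.PV

/-- a structure with one unary function, `c` constants, a witness function with `m` values and relations -/
structure Md (Rel : ℕ → Type) (c m : ℕ) (M : Type) where
  /-- the function -/
  f : M → M
  /-- the constants -/
  con : Fin c → M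
  /-- the witnesses -/
  w : M → Fin m → M
  /-- the relations -/
  R : ∀ l, Rel l → (Fin l → M) → Prop

variable {Rel : ℕ → Type} {c m : ℕ} {M : Type}

/-- the base points of `x` -/
def Md.bs (S : Md Rel c m M) (x : M) : Option (Fin m ⊕ Fin c) → M
  | none => x
  | some (Sum.inl j) => S.w x j
  | some (Sum.inr i) => S.con i

/-- the elements `f^k b`, `k ≤ D`, `b` a base point of `x` -/
def Md.Cl (S : Md Rel c m M) (D : ℕ) (x : M) : Set M :=
  {y | ∃ i, ∃ k, k ≤ D ∧ y = S.f^[k] (S.bs x i)}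

/-- a bound for the size of the closures -/
def c0 (c m D : ℕ) : ℕ := (D + 1) * (m + c + 1)

lemma Md.self_mem (S : Md Rel c m M) (D : ℕ) (x : M) : x ∈ S.Cl D x :=
  ⟨none, 0, Nat.zero_le _, rfl⟩

/-- Among more than `c0` positions one is not in the closure. -/
lemma Md.exists_missing (S : Md Rel c m M) (D : ℕ) (x : M) (a : ℕ → M) (lo n : ℕ)
    (hn : c0 c m D < n)
    (hinj : ∀ i j, lo ≤ i → i < lo + n → lo ≤ j → j < lo + n → a i = a j → i = j) :
    ∃ i, lo ≤ i ∧ i < lo + n ∧ a i ∉ S.Cl D x := by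
  by_contra hcon
  push Not at hcon
  have h1 : ∀ i : Fin n, ∃ p : Fin (D + 1) × Option (Fin m ⊕ Fin c),
      a (lo + i) = S.f^[(p.1 : ℕ)] (S.bs x p.2) := by
    intro i
    obtain ⟨b, k, hk, h⟩ := hcon (lo + i) (by omega) (by omega)
    exact ⟨(⟨k, by omega⟩, b), h⟩
  choose g hg using h1
  have hgi : Function.Injective g := by
    intro i j hij
    have h2 : a (lo + i) = a (lo + j) := by rw [hg, hg, hij]
    have := hinj _ _ (by omega) (by omega) (by omega) (by omega) h2
    exact Fin.ext (by omega)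
  have h3 := Fintype.card_le_of_injective g hgi
  rw [Fintype.card_fin, Fintype.card_prod, Fintype.card_fin, Fintype.card_option, Fintype.card_sum,
    Fintype.card_fin, Fintype.card_fin] at h3
  unfold c0 at hn
  omega

/-- a lift of the closure of `x` to the structure `M'`, for the point `x'` over `x` -/
structure Lift (D : ℕ) (S : Md Rel c m M) {M' : Type} (f' : M' → M') (con' : Fin c → M')
    (R' : ∀ l, Rel l → (Fin l → M') → Prop) (x' : M') (x : M) (σ : M → M') : Prop where
  pt : σ x = x'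
  con : ∀ i, σ (S.con i) = con' i
  step : ∀ i k, k < D → σ (S.f^[k + 1] (S.bs x i)) = f' (σ (S.f^[k] (S.bs x i)))
  inj : ∀ y z, y ∈ S.Cl D x → z ∈ S.Cl D x → σ y = σ z → y = z
  rel : ∀ l (ρ : Rel l) (τ : Fin l → M), (∀ i, τ i ∈ S.Cl D x) →
    (R' l ρ (fun i => σ (τ i)) ↔ S.R l ρ τ)

/-- there is a structure with `n` elements all of whose points are locally like points of `S` -/
def Ext (D : ℕ) (S : Md Rel c m M) (n : ℕ) : Prop :=
  ∃ (M' : Type) (_ : Fintype M') (f' : M' → M') (con' : Fin c → M')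
    (R' : ∀ l, Rel l → (Fin l → M') → Prop), Fintype.card M' = n ∧
    ∀ x' : M', ∃ (x : M) (σ : M → M'), Lift D S f' con' R' x' x σ

/-- The relations can be defined from consistent lifts. -/
lemma ext_of_lifts (D : ℕ) (S : Md Rel c m M) {M' : Type} [Fintype M'] (f' : M' → M')
    (con' : Fin c → M') (pi : M' → M) (σ : M' → M → M')
    (hpt : ∀ x', σ x' (pi x') = x') (hcon : ∀ x' i, σ x' (S.con i) = con' i)
    (hstep : ∀ x' i k, k < D →
      σ x' (S.f^[k + 1] (S.bs (pi x') i)) = f' (σ x' (S.f^[k] (S.bs (pi x') i))))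
    (hinj : ∀ x' y z, y ∈ S.Cl D (pi x') → z ∈ S.Cl D (pi x') → σ x' y = σ x' z → y = z)
    (hcons : ∀ x' x'' l (ρ : Rel l) (τ τ' : Fin l → M), (∀ i, τ i ∈ S.Cl D (pi x')) →
      (∀ i, τ' i ∈ S.Cl D (pi x'')) → (∀ i, σ x' (τ i) = σ x'' (τ' i)) →
      S.R l ρ τ' → S.R l ρ τ) :
    Ext D S (Fintype.card M') := by
  refine ⟨M', inferInstance, f', con', fun l ρ T => ∃ (x' : M') (τ : Fin l → M),
    (∀ i, τ i ∈ S.Cl D (pi x')) ∧ (∀ i, σ x' (τ i) = T i) ∧ S.R l ρ τ, rfl, fun x' =>
    ⟨pi x', σ x', hpt x', hcon x', hstep x', hinj x', fun l ρ τ hτ => ⟨?_, fun h => ⟨x', τ, hτ, fun _ => rfl, h⟩⟩⟩⟩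
  rintro ⟨x'', τ', hτ', h1, h2⟩
  exact hcons x' x'' l ρ τ τ' hτ hτ' (fun i => (h1 i).symm) h2

end Pool.Agent.Helper74.PV
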