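import Pool.Agent.Helper74.PV.A

/-!
# Shelah's class: copies of a small set closed under preimages
-/

set_option autoImplicit false

namespace Pool.Agent.Helper74.PV

variable {Rel : ℕ → Type} {c m : ℕ} {M : Type}

theorem ext_dup {D : ℕ} {S : Md Rel c m M} [Fintype M] {K : Finset M} (Q : ℕ)
    (hK : ∀ y, S.f y ∈ K → y ∈ K) (hcon : ∀ i, S.con i ∉ K) :
    Ext D S (Fintype.card M + K.card * Q) := by
  classical
  have hcard : Fintype.card (M ⊕ (K × Fin Q)) = Fintype.card M + K.card * Q := by
    rw [Fintype.card_sum, Fintype.card_prod, Fintype.card_fin, Fintype.card_coe]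
  rw [← hcard]
  let g : Option (Fin Q) → M → M ⊕ (K × Fin Q) := fun o y => match o with
    | none => Sum.inl y
    | some j => if h : y ∈ K then Sum.inr (⟨y, h⟩, j) else Sum.inl y
  let lab : M ⊕ (K × Fin Q) → Option (Fin Q) := fun x' => match x' with
    | Sum.inl _ => none
    | Sum.inr (_, j) => some j
  let pi : M ⊕ (K × Fin Q) → M := fun x' => match x' with
    | Sum.inl y => y
    | Sum.inr (y, _) => y.1
  have hpg : ∀ o y, pi (g o y) = y := by
    intro o y
    rcases o with _ | j
    · rfl
    · show pi (if h : y ∈ K then Sum.inr (⟨y, h⟩, j) else Sum.inl y) = y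
      split_ifs <;> rfl
  have hgp : ∀ x', g (lab x') (pi x') = x' := by
    rintro (y | ⟨y, j⟩)
    · rfl
    · show (if h : y.1 ∈ K then (Sum.inr (⟨y.1, h⟩, j) : M ⊕ (K × Fin Q)) else Sum.inl y.1) = _
      rw [dif_pos y.2]
  have hgf : ∀ o y, g o (S.f y) = g (lab (g o y)) (S.f y) := by
    intro o y
    rcases o with _ | j
    · rfl
    · show g (some j) (S.f y) = g (lab (if h : y ∈ K then Sum.inr (⟨y, h⟩, j) else Sum.inl y)) (S.f y)
      by_cases h : y ∈ K
      · rw [dif_pos h]
      · rw [dif_neg h]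
        show (if h' : S.f y ∈ K then (Sum.inr (⟨S.f y, h'⟩, j) : M ⊕ (K × Fin Q)) else
          Sum.inl (S.f y)) = Sum.inl (S.f y)
        rw [dif_neg (fun h' => h (hK y h'))]
  refine ext_of_lifts D S (fun x' => g (lab x') (S.f (pi x'))) (fun i => Sum.inl (S.con i)) pi
    (fun x' => g (lab x')) hgp ?_ ?_ ?_ ?_
  · intro x' i
    show g (lab x') (S.con i) = _
    rcases lab x' with _ | j
    · rfl
    · show (if h : S.con i ∈ K then (Sum.inr (⟨S.con i, h⟩, j) : M ⊕ (K × Fin Q)) else
          Sum.inl (S.con i)) = _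
      rw [dif_neg (hcon i)]
  · intro x' i k _
    show g (lab x') (S.f^[k + 1] (S.bs (pi x') i)) = g (lab (g (lab x') (S.f^[k] (S.bs (pi x') i))))
      (S.f (pi (g (lab x') (S.f^[k] (S.bs (pi x') i)))))
    rw [hpg, ← hgf, Function.iterate_succ_apply']
  · intro x' y z _ _ h
    have := congrArg pi h
    change pi (g (lab x') y) = pi (g (lab x') z) at this
    rwa [hpg, hpg] at this
  · intro x' x'' l R0 τ τ' _ _ hT h
    have : τ = τ' := by
      funext k
      have := congrArg pi (hT k)
      change pi (g (lab x') (τ k)) = pi (g (lab x'') (τ' k)) at this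
      rwa [hpg, hpg] at this
    rwa [this]

end Pool.Agent.Helper74.PV
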