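import Pool.Agent.Helper20.PV.Ex

/-!
# Shelah's class: terms and quantifier-free formulas, the prefix
-/

set_option autoImplicit false

namespace Pool.Agent.Helper74.PV

open FirstOrder FirstOrder.Language Pool.Agent.Helper20.Spectra Pool.Agent.Helper20.OP
  Pool.Agent.Helper29.Prefix Pool.Agent.Helper20.PV

variable {k : ℕ} {ar : Fin k → ℕ} {Rel : ℕ → Type} {n : ℕ}

/-- value of a constant symbol -/
def cst {M : Type} (S : (voc ar Rel).Structure M) (j : {j : Fin k // ar j = 0}) : M :=
  fn S j.1 (fun x => (Fin.cast j.2 x).elim0)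

/-- `f` is the interpretation of the unary function symbols -/
def IsF {M : Type} (S : (voc ar Rel).Structure M) (f : M → M) : Prop :=
  ∀ (i : Fin k) (h : ar i = 1) (a : Fin (ar i) → M), fn S i a = f (a (Fin.cast h.symm 0))

/-- base points -/
def bp {M : Type} (S : (voc ar Rel).Structure M) (v : Fin n → M) :
    Fin n ⊕ {j : Fin k // ar j = 0} → M := Sum.elim v (cst S)

lemma term_form (hB : ∀ i, ar i ≤ 1) (t : (voc ar Rel).Term (Empty ⊕ Fin n)) :
    ∃ (b : Fin n ⊕ {j : Fin k // ar j = 0}) (d : ℕ), ∀ (M : Type)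
      (S : (voc ar Rel).Structure M) (f : M → M), IsF S f → ∀ v : Fin n → M,
      @Term.realize _ M S _ (Sum.elim default v) t = f^[d] (bp S v b) := by
  induction t with
  | var a =>
    rcases a with a | i
    · exact a.elim
    · exact ⟨Sum.inl i, 0, fun M S f hf v => rfl⟩
  | func g ts ih =>
    obtain ⟨i, rfl⟩ := g
    rcases Nat.eq_zero_or_pos (ar i) with h | h
    · refine ⟨Sum.inr ⟨i, h⟩, 0, fun M S f hf v => ?_⟩
      rw [Term.realize_func]
      show fn S i _ = fn S i _
      congr 1
      funext x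
      exact (Fin.cast h x).elim0
    · have h1 : ar i = 1 := by have := hB i; omega
      obtain ⟨b, d, hbd⟩ := ih (Fin.cast h1.symm 0)
      refine ⟨b, d + 1, fun M S f hf v => ?_⟩
      rw [Term.realize_func]
      show fn S i _ = _
      rw [hf i h1, Function.iterate_succ_apply', hbd M S f hf v]

theorem transfer (hB : ∀ i, ar i ≤ 1) (ψ : (voc ar Rel).BoundedFormula Empty n) (hψ : ψ.IsQF) :
    ∃ D : ℕ, ∀ (M M' : Type) (S : (voc ar Rel).Structure M) (S' : (voc ar Rel).Structure M')
      (f : M → M) (f' : M' → M') (v : Fin n → M) (σ : M → M'), IsF S f → IsF S' f' →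
      (∀ j, σ (cst S j) = cst S' j) →
      (∀ b d, d < D → σ (f^[d + 1] (bp S v b)) = f' (σ (f^[d] (bp S v b)))) →
      (∀ b d b' d', d ≤ D → d' ≤ D → σ (f^[d] (bp S v b)) = σ (f^[d'] (bp S v b')) →
        f^[d] (bp S v b) = f^[d'] (bp S v b')) →
      (∀ l (ρ : Rel l) (τ : Fin l → M), (∀ i, ∃ b d, d ≤ D ∧ τ i = f^[d] (bp S v b)) →
        (rl S' ρ (fun i => σ (τ i)) ↔ rl S ρ τ)) →
      (@BoundedFormula.Realize _ M' S' _ _ ψ default (fun i => σ (v i)) ↔
        @BoundedFormula.Realize _ M S _ _ ψ default v) := by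
  have key : ∀ (M M' : Type) (S : (voc ar Rel).Structure M) (S' : (voc ar Rel).Structure M')
      (f : M → M) (f' : M' → M') (v : Fin n → M) (σ : M → M') (D : ℕ),
      (∀ j, σ (cst S j) = cst S' j) →
      (∀ b d, d < D → σ (f^[d + 1] (bp S v b)) = f' (σ (f^[d] (bp S v b)))) →
      ∀ d, d ≤ D → ∀ b, f'^[d] (bp S' (fun i => σ (v i)) b) = σ (f^[d] (bp S v b)) := by
    intro M M' S S' f f' v σ D hc hs d
    induction d with
    | zero =>
      intro _ b
      rcases b with b | b
      · rfl
      · exact (hc b).symm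
    | succ d ih =>
      intro hd b
      rw [Function.iterate_succ_apply', ih (by omega), hs b d (by omega)]
  induction hψ with
  | falsum => exact ⟨0, fun M M' S S' f f' v σ _ _ _ _ _ _ => Iff.rfl⟩
  | of_isAtomic hA =>
    cases hA with
    | equal t₁ t₂ =>
      obtain ⟨b₁, d₁, h₁⟩ := term_form hB t₁
      obtain ⟨b₂, d₂, h₂⟩ := term_form hB t₂
      refine ⟨max d₁ d₂, fun M M' S S' f f' v σ hf hf' hc hs hi hr => ?_⟩
      rw [BoundedFormula.realize_bdEqual, BoundedFormula.realize_bdEqual, h₁ M S f hf v,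
        h₂ M S f hf v, h₁ M' S' f' hf' _, h₂ M' S' f' hf' _,
        key M M' S S' f f' v σ _ hc hs d₁ (le_max_left _ _),
        key M M' S S' f f' v σ _ hc hs d₂ (le_max_right _ _)]
      exact ⟨fun h => hi _ _ _ _ (le_max_left _ _) (le_max_right _ _) h, fun h => by rw [h]⟩
    | rel ρ ts =>
      choose b d h using fun i => term_form hB (ts i)
      refine ⟨Finset.univ.sup d, fun M M' S S' f f' v σ hf hf' hc hs hi hr => ?_⟩
      rw [BoundedFormula.realize_rel, BoundedFormula.realize_rel]
      have e1 : (fun i => @Term.realize _ M' S' _ (Sum.elim default (fun i => σ (v i))) (ts i)) =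
          fun i => σ (f^[d i] (bp S v (b i))) := by
        funext i
        rw [h i M' S' f' hf' _]
        exact key M M' S S' f f' v σ _ hc hs (d i) (Finset.le_sup (Finset.mem_univ i)) (b i)
      have e2 : (fun i => @Term.realize _ M S _ (Sum.elim default v) (ts i)) =
          fun i => f^[d i] (bp S v (b i)) := by
        funext i
        exact h i M S f hf _
      rw [e1, e2]
      exact hr _ ρ _ (fun i => ⟨b i, d i, Finset.le_sup (Finset.mem_univ i), rfl⟩)
  | imp _ _ ih₁ ih₂ =>
    obtain ⟨D₁, h₁⟩ := ih₁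
    obtain ⟨D₂, h₂⟩ := ih₂
    refine ⟨max D₁ D₂, fun M M' S S' f f' v σ hf hf' hc hs hi hr => ?_⟩
    rw [BoundedFormula.realize_imp, BoundedFormula.realize_imp]
    rw [h₁ M M' S S' f f' v σ hf hf' hc (fun b d hd => hs b d (lt_of_lt_of_le hd (le_max_left _ _)))
      (fun b d b' d' hd hd' => hi b d b' d' (hd.trans (le_max_left _ _)) (hd'.trans (le_max_left _ _)))
      (fun l ρ τ h => hr l ρ τ (fun i => by
        obtain ⟨b, d, hd, e⟩ := h i
        exact ⟨b, d, hd.trans (le_max_left _ _), e⟩)),
      h₂ M M' S S' f f' v σ hf hf' hc (fun b d hd => hs b d (lt_of_lt_of_le hd (le_max_right _ _)))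
      (fun b d b' d' hd hd' => hi b d b' d' (hd.trans (le_max_right _ _))
        (hd'.trans (le_max_right _ _)))
      (fun l ρ τ h => hr l ρ τ (fun i => by
        obtain ⟨b, d, hd, e⟩ := h i
        exact ⟨b, d, hd.trans (le_max_right _ _), e⟩))]

/-- existential prefixes -/
lemma preQ_ex {M : Type} {q : ℕ → Bool} : ∀ (s : ℕ) (_ : ∀ i, i < s → q i = false)
    (P : (Fin s → M) → Prop), preQ q s P ↔ ∃ x, P x
  | 0, _, P => ⟨fun h => ⟨_, h⟩, fun ⟨x, h⟩ => by
      have : x = default := Subsingleton.elim _ _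
      rw [this] at h
      exact h⟩
  | s + 1, hq, P => by
    show preQ q s (fun v => if q s = true then (∀ x : M, P (Fin.snoc v x)) else
      ∃ x : M, P (Fin.snoc v x)) ↔ _
    rw [preQ_ex s (fun i hi => hq i (by omega))]
    rw [hq s (Nat.lt_succ_self s)]
    constructor
    · rintro ⟨v, x, h⟩
      exact ⟨_, h⟩
    · rintro ⟨w, h⟩
      refine ⟨Fin.init w, w (Fin.last s), ?_⟩
      rw [Fin.snoc_init_self]
      exact h

/-- existential suffixes -/
lemma preQ_suf {M : Type} {q : ℕ → Bool} (s : ℕ) : ∀ (m : ℕ)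
    (_ : ∀ i, s ≤ i → i < s + m → q i = false)
    (P : (Fin (s + m) → M) → Prop), preQ q (s + m) P ↔
      preQ q s (fun v => ∃ z : Fin m → M, P (Fin.append v z))
  | 0, _, P => by
    refine preQ_congr q (fun v => ?_)
    constructor
    · intro h
      refine ⟨default, ?_⟩
      rw [show Fin.append v (default : Fin 0 → M) = v from by
        funext i
        refine Fin.addCases (fun i => ?_) (fun i => i.elim0) i
        rw [Fin.append_left]
        rfl]
      exact h
    · rintro ⟨z, h⟩
      rw [show Fin.append v z = v from by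
        funext i
        refine Fin.addCases (fun i => ?_) (fun i => i.elim0) i
        rw [Fin.append_left]
        rfl] at h
      exact h
  | m + 1, hq, P => by
    show preQ q (s + m) (fun v => if q (s + m) = true then (∀ x : M, P (Fin.snoc v x)) else
      ∃ x : M, P (Fin.snoc v x)) ↔ _
    rw [preQ_suf s m (fun i h1 h2 => hq i h1 (by omega))]
    refine preQ_congr q (fun v => ?_)
    rw [hq (s + m) (by omega) (by omega)]
    have hap : ∀ (z : Fin m → M) (x : M), Fin.append v (Fin.snoc z x : Fin (m + 1) → M) =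
        (Fin.snoc (Fin.append v z) x : Fin (s + m + 1) → M) := by
      intro z x
      exact Fin.append_snoc v z x
    constructor
    · rintro ⟨z, x, h⟩
      refine ⟨Fin.snoc z x, ?_⟩
      rw [hap]
      exact h
    · rintro ⟨w, h⟩
      refine ⟨Fin.init w, w (Fin.last m), ?_⟩
      rw [← hap, Fin.snoc_init_self]
      exact h

end Pool.Agent.Helper74.PV
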