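import Mathlib

/-!
# Shelah's class: finding a long orbit segment
-/

set_option autoImplicit false

namespace Pool.Agent.Helper74.PV

open Finset

variable {M : Type}

section

variable [Fintype M] [DecidableEq M] (f : M → M) (C : Finset M)

/-- bad elements: constants and elements with zero or at least two preimages -/
def bad : Finset M := univ.filter (fun y => y ∈ C ∨ (univ.filter (fun z => f z = y)).card ≠ 1)

lemma sum_fib : ∑ y : M, (univ.filter (fun z => f z = y)).card = Fintype.card M := by
  rw [← Finset.card_univ (α := M)]
  exact (Finset.card_eq_sum_card_fiberwise (fun x _ => Finset.mem_univ (f x))).symm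

lemma card_bad (hleaf : ∀ y, (univ.filter (fun z => f z = y)).card = 0 → y ∈ C) :
    (bad f C).card ≤ 2 * C.card := by
  set W := univ.filter (fun y : M => 2 ≤ (univ.filter (fun z => f z = y)).card) with hW
  set Z := univ.filter (fun y : M => (univ.filter (fun z => f z = y)).card = 0) with hZ
  have h1 : W.card ≤ Z.card := by
    have h2 : ∑ y : M, (1 + if y ∈ W then 1 else 0) ≤
        ∑ y : M, ((univ.filter (fun z => f z = y)).card + if y ∈ Z then 1 else 0) := by
      refine Finset.sum_le_sum (fun y _ => ?_)
      by_cases hw : y ∈ W
      · have : 2 ≤ (univ.filter (fun z => f z = y)).card := by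
          rw [hW] at hw
          simpa using hw
        rw [if_pos hw]
        omega
      · rw [if_neg hw]
        by_cases hz : y ∈ Z
        · rw [if_pos hz]
          omega
        · rw [if_neg hz]
          have : (univ.filter (fun z => f z = y)).card ≠ 0 := by
            rw [hZ] at hz
            simpa using hz
          omega
    rw [Finset.sum_add_distrib, Finset.sum_add_distrib, sum_fib] at h2
    rw [Finset.sum_const, Finset.card_univ, smul_eq_mul, mul_one] at h2
    rw [Finset.sum_ite_mem, Finset.sum_ite_mem, Finset.univ_inter, Finset.univ_inter] at h2
    simp only [Finset.sum_const, smul_eq_mul, mul_one] at h2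
    omega
  have h2 : Z ⊆ C := by
    intro y hy
    rw [hZ, Finset.mem_filter] at hy
    exact hleaf y hy.2
  have h3 : bad f C ⊆ C ∪ W := by
    intro y hy
    unfold bad at hy
    rw [Finset.mem_filter] at hy
    rw [Finset.mem_union]
    rcases hy.2 with h | h
    · exact Or.inl h
    · by_cases h0 : (univ.filter (fun z => f z = y)).card = 0
      · exact Or.inl (hleaf y h0)
      · right
        rw [hW, Finset.mem_filter]
        exact ⟨Finset.mem_univ _, by omega⟩
  have h4 := Finset.card_le_card h3
  have h5 := Finset.card_union_le C W
  have h6 := Finset.card_le_card h2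
  omega

/-- points whose first `i` iterates are good -/
def good (i : ℕ) : Finset M := univ.filter (fun x => ∀ j, j < i → f^[j] x ∉ bad f C)

lemma card_pre (i : ℕ) : (univ.filter (fun x => f x ∈ good f C i)).card = (good f C i).card := by
  rcases i with _ | i
  · congr 1
    ext x
    simp [good]
  · have h1 : (univ.filter (fun x => f x ∈ good f C (i + 1))).card =
        ∑ y ∈ good f C (i + 1), ((univ.filter (fun x => f x ∈ good f C (i + 1))).filter
          (fun z => f z = y)).card := by
      refine Finset.card_eq_sum_card_fiberwise (fun x hx => ?_)
      simpa using hx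
    rw [h1]
    have h2 : ∀ y ∈ good f C (i + 1), ((univ.filter (fun x => f x ∈ good f C (i + 1))).filter
          (fun z => f z = y)).card = 1 := by
      intro y hy
      have h3 : (univ.filter (fun x => f x ∈ good f C (i + 1))).filter (fun z => f z = y) =
          univ.filter (fun z => f z = y) := by
        ext z
        simp only [Finset.mem_filter, Finset.mem_univ, true_and]
        constructor
        · exact fun h => h.2
        · intro h
          exact ⟨by rw [h]; exact hy, h⟩
      rw [h3]
      have h4 : y ∉ bad f C := by
        unfold good at hy
        rw [Finset.mem_filter] at hy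
        exact hy.2 0 (Nat.succ_pos i)
      unfold bad at h4
      rw [Finset.mem_filter] at h4
      push Not at h4
      exact (h4 (Finset.mem_univ _)).2
    rw [Finset.sum_congr rfl h2]
    simp

lemma card_good (i : ℕ) : Fintype.card M ≤ (good f C i).card + i * (bad f C).card := by
  induction i with
  | zero =>
    have : good f C 0 = univ := by
      ext x
      simp [good]
    rw [this, Finset.card_univ]
    omega
  | succ i ih =>
    have h1 : univ.filter (fun x => f x ∈ good f C i) ⊆ good f C (i + 1) ∪ bad f C := by
      intro x hx
      rw [Finset.mem_filter] at hx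
      rw [Finset.mem_union]
      by_cases hb : x ∈ bad f C
      · exact Or.inr hb
      · left
        unfold good
        rw [Finset.mem_filter]
        refine ⟨Finset.mem_univ _, fun j hj => ?_⟩
        rcases j with _ | j
        · exact hb
        · rw [Function.iterate_succ_apply]
          have := hx.2
          unfold good at this
          rw [Finset.mem_filter] at this
          exact this.2 j (by omega)
    have h2 := Finset.card_le_card h1
    have h3 := Finset.card_union_le (good f C (i + 1)) (bad f C)
    have h4 := card_pre f C i
    have h5 : (i + 1) * (bad f C).card = i * (bad f C).card + (bad f C).card := by ring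
    omega

end

/-- A long orbit segment without constants and without branching, or a small set closed under
preimages without constants. -/
theorem exists_window [Fintype M] (f : M → M) (C : Finset M) (B : ℕ) (hB : 0 < B)
    (hcard : 2 * C.card * B < Fintype.card M) :
    (∃ K : Finset M, K.Nonempty ∧ K.card ≤ B ∧ (∀ y, f y ∈ K → y ∈ K) ∧ ∀ y ∈ C, y ∉ K) ∨
    ∃ a : ℕ → M, (∀ i, i + 1 < B → f (a i) = a (i + 1)) ∧
      (∀ i j, i < B → j < B → a i = a j → i = j) ∧ (∀ i, i < B → a i ∉ C) ∧
      ∀ i, i + 1 < B → ∀ y, f y = a (i + 1) → y = a i := by
  classical
  by_cases hleaf : ∀ y, (univ.filter (fun z => f z = y)).card = 0 → y ∈ C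
  · have h1 := card_bad f C hleaf
    have h2 := card_good f C B
    have h3 : B * (bad f C).card ≤ 2 * C.card * B := by
      rw [mul_comm]
      exact Nat.mul_le_mul_right _ h1
    have h4 : 0 < (good f C B).card := by omega
    obtain ⟨x, hx⟩ := Finset.card_pos.1 h4
    unfold good at hx
    rw [Finset.mem_filter] at hx
    have hx' : ∀ j, j < B → f^[j] x ∉ C ∧ ∀ y z, f y = f^[j] x → f z = f^[j] x → y = z := by
      intro j hj
      have h5 := hx.2 j hj
      unfold bad at h5
      rw [Finset.mem_filter] at h5
      push Not at h5
      obtain ⟨h6, h7⟩ := h5 (Finset.mem_univ _)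
      refine ⟨h6, fun y z hy hz => ?_⟩
      rw [Finset.card_eq_one] at h7
      obtain ⟨u, hu⟩ := h7
      have hy' : y ∈ univ.filter (fun z => f z = f^[j] x) := by simp [hy]
      have hz' : z ∈ univ.filter (fun z => f z = f^[j] x) := by simp [hz]
      rw [hu, Finset.mem_singleton] at hy' hz'
      rw [hy', hz']
    by_cases hinj : ∀ i j, i < B → j < B → f^[i] x = f^[j] x → i = j
    · right
      refine ⟨fun i => f^[i] x, fun i hi => (Function.iterate_succ_apply' f i x).symm, hinj,
        fun i hi => (hx' i hi).1, fun i hi y hy => ?_⟩
      exact (hx' (i + 1) hi).2 y (f^[i] x) hy (Function.iterate_succ_apply' f i x).symm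
    · left
      -- a cycle
      have hcyc : ∃ n, 0 < n ∧ n < B ∧ f^[n] x = x := by
        push Not at hinj
        obtain ⟨i, j, hi, hj, hij, hne⟩ := hinj
        wlog hlt : i < j generalizing i j
        · exact this j i hj hi hij.symm (Ne.symm hne) (by omega)
        have key : ∀ k, k ≤ i → f^[i - k] x = f^[j - k] x := by
          intro k
          induction k with
          | zero => intro _; exact hij
          | succ k ih =>
            intro hk
            have h8 := ih (by omega)
            refine (hx' (i - k) (by omega)).2 _ _ ?_ ?_
            · rw [← Function.iterate_succ_apply' f]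
              congr 2
              omega
            · rw [← Function.iterate_succ_apply' f, h8]
              congr 2
              omega
        refine ⟨j - i, by omega, by omega, ?_⟩
        have := key i le_rfl
        rw [Nat.sub_self] at this
        exact this.symm
      obtain ⟨n, hn, hnB, hfn⟩ := hcyc
      refine ⟨(Finset.range n).image (fun i => f^[i] x), ⟨x, ?_⟩, ?_, ?_, ?_⟩
      · rw [Finset.mem_image]
        exact ⟨0, by simpa using hn, rfl⟩
      · refine Finset.card_image_le.trans ?_
        rw [Finset.card_range]
        omega
      · intro y hy
        rw [Finset.mem_image] at hy ⊢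
        obtain ⟨i, hi, hy⟩ := hy
        rw [Finset.mem_range] at hi
        rcases i with _ | i
        · refine ⟨n - 1, by simpa using hn, ?_⟩
          refine (hx' 0 (by omega)).2 _ _ ?_ hy.symm
          rw [← Function.iterate_succ_apply' f]
          show f^[n - 1 + 1] x = x
          rw [Nat.sub_add_cancel hn, hfn]
        · refine ⟨i, by rw [Finset.mem_range]; omega, ?_⟩
          exact (hx' (i + 1) (by omega)).2 _ _ (Function.iterate_succ_apply' f i x).symm hy.symm
      · intro y hy hyK
        rw [Finset.mem_image] at hyK
        obtain ⟨i, hi, rfl⟩ := hyK
        rw [Finset.mem_range] at hi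
        exact (hx' i (by omega)).1 hy
  · left
    push Not at hleaf
    obtain ⟨y, h1, h2⟩ := hleaf
    refine ⟨{y}, ⟨y, Finset.mem_singleton_self y⟩, by rw [Finset.card_singleton]; exact hB, ?_, ?_⟩
    · intro z hz
      rw [Finset.mem_singleton] at hz
      rw [Finset.card_eq_zero] at h1
      have : z ∈ univ.filter (fun z => f z = y) := by simp [hz]
      rw [h1] at this
      exact absurd this (Finset.notMem_empty _)
    · intro z hz hzy
      rw [Finset.mem_singleton] at hzy
      exact h2 (hzy ▸ hz)

end Pool.Agent.Helper74.PV
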