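import Pool.Agent.Helper74.PV.Sur
import Pool.Agent.Helper74.PV.Dup
import Pool.Agent.Helper74.PV.Win
import Pool.Agent.Helper13.NC.Sun

/-!
# Shelah's class: selection of the cut points; the periodicity theorem for the structures
-/

set_option autoImplicit false

namespace Pool.Agent.Helper74.PV

open Finset

variable {Rel : ℕ → Type} {c m : ℕ} {M : Type}

/-- the closure as a finite set -/
noncomputable def Md.ClF (S : Md Rel c m M) (D : ℕ) (x : M) [DecidableEq M] : Finset M :=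
  (univ : Finset (Fin (D + 1) × Option (Fin m ⊕ Fin c))).image (fun p => S.f^[(p.1 : ℕ)] (S.bs x p.2))

lemma Md.mem_ClF (S : Md Rel c m M) (D : ℕ) (x y : M) [DecidableEq M] :
    y ∈ S.ClF D x ↔ y ∈ S.Cl D x := by
  unfold Md.ClF
  rw [Finset.mem_image]
  constructor
  · rintro ⟨p, -, rfl⟩
    exact ⟨p.2, p.1, by omega, rfl⟩
  · rintro ⟨i, k, hk, rfl⟩
    exact ⟨(⟨k, by omega⟩, i), Finset.mem_univ _, rfl⟩

lemma Md.card_ClF (S : Md Rel c m M) (D : ℕ) (x : M) [DecidableEq M] :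
    (S.ClF D x).card ≤ c0 c m D := by
  unfold Md.ClF
  refine Finset.card_image_le.trans ?_
  rw [Finset.card_univ, Fintype.card_prod, Fintype.card_fin, Fintype.card_option, Fintype.card_sum,
    Fintype.card_fin, Fintype.card_fin]
  exact le_of_eq rfl

/-- Selection of the cut points. -/
theorem exists_sel (Rel : ℕ → Type) [Finite (Σ l, Rel l)] (c m D r : ℕ) (hr : 0 < r) :
    ∃ B : ℕ, 0 < B ∧ ∀ (M : Type) (S : Md Rel c m M) (a : ℕ → M), ∃ s L : ℕ,
      4 * r ≤ L ∧ 2 * r ≤ s ∧ s + L + 2 * r ≤ B ∧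
      ∀ l (ρ : Rel l) (τ τ' : Fin l → M), (∀ k,
        (∃ e, e < 4 * r ∧ τ k = a (s + L - 2 * r + e) ∧ τ' k = a (s - 2 * r + e)) ∨
        (τ k = τ' k ∧ (∃ e, e < 4 * r ∧ τ k ∈ S.Cl D (a (s + L - 2 * r + e))) ∧
          ∃ e, e < 4 * r ∧ τ k ∈ S.Cl D (a (s - 2 * r + e)))) → (S.R l ρ τ ↔ S.R l ρ τ') := by
  classical
  have := Fintype.ofFinite (Σ l, Rel l)
  set K0 : ℕ := 4 * r * c0 c m D with hK0
  have hT : Finite ((x : Σ l, Rel l) → (Fin x.1 → Fin (4 * r) ⊕ Fin K0) → Prop) := inferInstance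
  have := Fintype.ofFinite ((x : Σ l, Rel l) → (Fin x.1 → Fin (4 * r) ⊕ Fin K0) → Prop)
  set T : ℕ := Fintype.card ((x : Σ l, Rel l) → (Fin x.1 → Fin (4 * r) ⊕ Fin K0) → Prop) + 1 with hTd
  obtain ⟨J, hJ⟩ := Pool.Agent.Helper13.NC.sunflower K0 T
  refine ⟨4 * r * (J + 1), by positivity, fun M S a => ?_⟩
  -- the windows
  let F : ℕ → Finset M := fun j => (univ : Finset (Fin (4 * r))).biUnion
    (fun e => S.ClF D (a (4 * r * j + e)))
  have hF : ∀ j, (F j).card ≤ K0 := by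
    intro j
    refine Finset.card_biUnion_le.trans ?_
    refine (Finset.sum_le_card_nsmul _ _ (c0 c m D) fun e _ => S.card_ClF D _).trans ?_
    rw [Finset.card_univ, Fintype.card_fin, smul_eq_mul]
  have hmemF : ∀ j y, y ∈ F j ↔ ∃ e, e < 4 * r ∧ y ∈ S.Cl D (a (4 * r * j + e)) := by
    intro j y
    simp only [F, Finset.mem_biUnion, Finset.mem_univ, true_and]
    constructor
    · rintro ⟨e, he⟩
      exact ⟨e, e.2, (S.mem_ClF D _ y).1 he⟩
    · rintro ⟨e, he, h⟩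
      exact ⟨⟨e, he⟩, (S.mem_ClF D _ y).2 h⟩
  obtain ⟨Y, hYJ, hYc, I, hI⟩ := hJ (Finset.range J) F (fun y _ => hF y) (by rw [Finset.card_range])
  -- the kernel has at most `K0` elements
  have hY2 : 1 < Y.card ∨ Y.card = 1 := by omega
  -- enumeration of the kernel
  have hIc : 2 ≤ T → I.card ≤ K0 := by
    intro h2
    have h1 : 1 < Y.card := by omega
    obtain ⟨y, hy, y', hy', hne⟩ := Finset.one_lt_card.1 h1
    rw [← hI y hy y' hy' hne]
    exact (Finset.card_le_card Finset.inter_subset_left).trans (hF y)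
  have hT2 : 2 ≤ T := by
    have : 0 < Fintype.card ((x : Σ l, Rel l) → (Fin x.1 → Fin (4 * r) ⊕ Fin K0) → Prop) :=
      Fintype.card_pos
    omega
  have hIc' := hIc hT2
  obtain ⟨g, hg⟩ : ∃ g : Fin K0 → M, ∀ y ∈ I, ∃ i, g i = y := by
    have e := I.equivFin
    refine ⟨fun i => if h : (i : ℕ) < I.card then (e.symm ⟨i, h⟩ : M) else a 0, fun y hy => ?_⟩
    refine ⟨⟨e ⟨y, hy⟩, lt_of_lt_of_le (e ⟨y, hy⟩).2 hIc'⟩, ?_⟩
    simp
  -- the types
  let ty : Y → ((x : Σ l, Rel l) → (Fin x.1 → Fin (4 * r) ⊕ Fin K0) → Prop) := fun j x φ =>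
    S.R x.1 x.2 (fun k => Sum.elim (fun e : Fin (4 * r) => a (4 * r * (j : ℕ) + e)) g (φ k))
  obtain ⟨j, j', hne, hty⟩ := Fintype.exists_ne_map_eq_of_card_lt ty (by
    rw [Fintype.card_coe, hYc]
    omega)
  wlog hlt : (j : ℕ) < (j' : ℕ) generalizing j j'
  · have hnv : (j : ℕ) ≠ (j' : ℕ) := fun h => hne (Subtype.ext h)
    exact this j' j (Ne.symm hne) hty.symm (by omega)
  have hj := Finset.mem_range.1 (hYJ j.2)
  have hj' := Finset.mem_range.1 (hYJ j'.2)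
  obtain ⟨d, hd⟩ := Nat.exists_eq_add_of_lt hlt
  have hmul : 4 * r * (j' : ℕ) = 4 * r * (j : ℕ) + 4 * r * (d + 1) := by
    rw [hd]; ring
  have hmul2 : 4 * r ≤ 4 * r * (d + 1) := Nat.le_mul_of_pos_right _ (Nat.succ_pos d)
  have hmul3 : 4 * r * (j' : ℕ) + 4 * r ≤ 4 * r * (J + 1) := by
    have : 4 * r * ((j' : ℕ) + 1) ≤ 4 * r * (J + 1) := Nat.mul_le_mul_left _ (by omega)
    rwa [Nat.mul_add, Nat.mul_one] at this
  have hs : 4 * r * (j : ℕ) + 2 * r - 2 * r = 4 * r * (j : ℕ) := by omega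
  have ht : 4 * r * (j : ℕ) + 2 * r + 4 * r * (d + 1) - 2 * r = 4 * r * (j' : ℕ) := by omega
  refine ⟨4 * r * (j : ℕ) + 2 * r, 4 * r * (d + 1), hmul2, by omega, by omega, ?_⟩
  rw [hs, ht]
  intro l ρ τ τ' h
  have hφ : ∀ k, ∃ u : Fin (4 * r) ⊕ Fin K0,
      Sum.elim (fun e : Fin (4 * r) => a (4 * r * (j' : ℕ) + e)) g u = τ k ∧
      Sum.elim (fun e : Fin (4 * r) => a (4 * r * (j : ℕ) + e)) g u = τ' k := by
    intro k
    rcases h k with ⟨e, he, h1, h2⟩ | ⟨h0, h1, h2⟩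
    · exact ⟨Sum.inl ⟨e, he⟩, h1.symm, h2.symm⟩
    · have h3 : τ k ∈ I := by
        rw [← hI j' j'.2 j j.2 (by omega), Finset.mem_inter]
        exact ⟨(hmemF _ _).2 h1, (hmemF _ _).2 h2⟩
      obtain ⟨i, hi⟩ := hg _ h3
      exact ⟨Sum.inr i, hi, by rw [← h0]; exact hi⟩
  choose φ hφ1 hφ2 using hφ
  have h4 := congrFun (congrFun hty ⟨l, ρ⟩) φ
  simp only [ty, hφ1, hφ2] at h4
  rw [h4]

/-- The periodicity theorem for structures. -/
theorem ext_core (Rel : ℕ → Type) [Finite (Σ l, Rel l)] (c m D : ℕ) :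
    ∃ p : ℕ, 0 < p ∧ ∃ N0 : ℕ, ∀ (M : Type) (_ : Fintype M) (S : Md Rel c m M),
      N0 ≤ Fintype.card M → Ext D S (Fintype.card M + p) := by
  classical
  obtain ⟨B, hB, hsel⟩ := exists_sel Rel c m D (c0 c m D + 1) (Nat.succ_pos _)
  refine ⟨B.factorial, Nat.factorial_pos B, 2 * c * B + 1, fun M _ S hM => ?_⟩
  have hC : (univ.image S.con).card ≤ c := by
    refine Finset.card_image_le.trans ?_
    rw [Finset.card_univ, Fintype.card_fin]
  have hC2 : 2 * (univ.image S.con).card * B ≤ 2 * c * B :=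
    Nat.mul_le_mul_right _ (Nat.mul_le_mul_left _ hC)
  rcases exists_window S.f (univ.image S.con) B hB (by omega) with
    ⟨K, hK0, hKB, hK, hKc⟩ | ⟨a, h1, h2, h3, h4⟩
  · have hd : K.card ∣ B.factorial := Nat.dvd_factorial (Finset.card_pos.2 hK0) hKB
    obtain ⟨Q, hQ⟩ := hd
    rw [hQ]
    exact ext_dup Q hK (fun i => hKc _ (Finset.mem_image_of_mem _ (Finset.mem_univ i)))
  · obtain ⟨s, L, g1, g2, g3, g4⟩ := hsel M S a
    have hd : L ∣ B.factorial := Nat.dvd_factorial (by omega) (by omega)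
    obtain ⟨Q, hQ⟩ := hd
    rw [hQ]
    refine ext_sur (a := a) (B := B) (s := s) (r := c0 c m D + 1) h1 h2
      (fun i hi j he => h3 i hi ?_) h4 (Nat.lt_succ_self _) g1 g2 g3 g4
    rw [he]
    exact Finset.mem_image_of_mem _ (Finset.mem_univ j)

end Pool.Agent.Helper74.PV
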