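import Pool.Agent.Helper74.PV.A

/-!
# Shelah's class: surgery on a long orbit segment
-/

set_option autoImplicit false

namespace Pool.Agent.Helper74.PV

variable {Rel : ℕ → Type} {c m : ℕ} {M : Type}

/-- one of the three kinds of shifts -/
def Opt (s L Q r ρ q i sh : ℕ) : Prop :=
  (sh = 0 ∧ i + r < s + L) ∨ (sh = L * Q ∧ s + r ≤ i) ∨
    (sh = L * q ∧ ρ < i + r ∧ i < ρ + r ∧ s ≤ ρ ∧ ρ < s + L)

lemma arith_aux {s L Q r ρ q i sh ρ' q' i' sh' : ℕ} (hL : 4 * r ≤ L) (hr : 0 < r) (hq : q ≤ Q)
    (hq' : q' ≤ Q) (h : i + sh = i' + sh') (o : Opt s L Q r ρ q i sh) (o' : Opt s L Q r ρ' q' i' sh') :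
    i = i' ∨
    (q' = q + 1 ∧ i = i' + L ∧ (ρ < i + r ∧ i < ρ + r ∧ s ≤ ρ ∧ ρ < s + L) ∧
      (ρ' < i' + r ∧ i' < ρ' + r ∧ s ≤ ρ' ∧ ρ' < s + L)) ∨
    (q = q' + 1 ∧ i' = i + L ∧ (ρ < i + r ∧ i < ρ + r ∧ s ≤ ρ ∧ ρ < s + L) ∧
      (ρ' < i' + r ∧ i' < ρ' + r ∧ s ≤ ρ' ∧ ρ' < s + L)) := by
  have mulge : ∀ k : ℕ, k = 0 ∨ L ≤ L * k := by
    intro k
    rcases Nat.eq_zero_or_pos k with h | h
    · exact Or.inl h
    · exact Or.inr (Nat.le_mul_of_pos_right L h)
  obtain ⟨u, hu⟩ := Nat.exists_eq_add_of_le hq
  obtain ⟨u', hu'⟩ := Nat.exists_eq_add_of_le hq'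
  have hLu : L * Q = L * q + L * u := by rw [hu, Nat.mul_add]
  have hLu' : L * Q = L * q' + L * u' := by rw [hu', Nat.mul_add]
  unfold Opt at o o'
  rcases o with ⟨e, o⟩ | ⟨e, o⟩ | ⟨e, o⟩ <;> rcases o' with ⟨e', o'⟩ | ⟨e', o'⟩ | ⟨e', o'⟩
  · left; omega
  · left
    rcases mulge Q with h1 | h1
    · rw [h1, Nat.mul_zero] at e'; omega
    · omega
  · left
    rcases mulge q' with h1 | h1
    · rw [h1, Nat.mul_zero] at e'; omega
    · omega
  · left
    rcases mulge Q with h1 | h1
    · rw [h1, Nat.mul_zero] at e; omega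
    · omega
  · left; omega
  · left
    rcases mulge u' with h1 | h1
    · rw [h1, Nat.mul_zero] at hLu'; omega
    · omega
  · left
    rcases mulge q with h1 | h1
    · rw [h1, Nat.mul_zero] at e; omega
    · omega
  · left
    rcases mulge u with h1 | h1
    · rw [h1, Nat.mul_zero] at hLu; omega
    · omega
  · rcases lt_trichotomy q q' with hlt | heq | hlt
    · right; left
      obtain ⟨k, hk⟩ := Nat.exists_eq_add_of_lt hlt
      have hLk : L * q' = L * q + L * k + L := by rw [hk]; ring
      rcases mulge k with h1 | h1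
      · subst h1
        rw [Nat.mul_zero] at hLk
        exact ⟨by omega, by omega, o, o'⟩
      · omega
    · left
      rw [heq] at e
      omega
    · right; right
      obtain ⟨k, hk⟩ := Nat.exists_eq_add_of_lt hlt
      have hLk : L * q = L * q' + L * k + L := by rw [hk]; ring
      rcases mulge k with h1 | h1
      · subst h1
        rw [Nat.mul_zero] at hLk
        exact ⟨by omega, by omega, o, o'⟩
      · omega

section

variable (a : ℕ → M) (B N : ℕ)

/-- the new universe: the old window of length `B` is replaced by one of length `N` -/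
abbrev NewM : Type := {y : M // ∀ i, i < B → y ≠ a i} ⊕ Fin N

variable {a B N} (hN : 0 < N)

/-- a point of the new window -/
def npt (x : ℕ) : Fin N := ⟨x % N, Nat.mod_lt _ hN⟩

open Classical in
/-- the map given by a shift -/
noncomputable def sg (sh : ℕ → ℕ) (y : M) : NewM a B N :=
  if h : ∃ i, i < B ∧ y = a i then Sum.inr (npt hN (h.choose + sh h.choose))
  else Sum.inl ⟨y, fun i hi he => h ⟨i, hi, he⟩⟩

lemma sg_out (sh : ℕ → ℕ) (y : M) (h : ∀ i, i < B → y ≠ a i) :
    sg (a := a) (B := B) hN sh y = Sum.inl ⟨y, h⟩ := by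
  unfold sg
  rw [dif_neg]
  rintro ⟨i, hi, he⟩
  exact h i hi he

lemma sg_in (hinj : ∀ i j, i < B → j < B → a i = a j → i = j) (sh : ℕ → ℕ) {i : ℕ} (hi : i < B) :
    sg (a := a) (B := B) hN sh (a i) = Sum.inr (npt hN (i + sh i)) := by
  have h : ∃ i', i' < B ∧ a i = a i' := ⟨i, hi, rfl⟩
  unfold sg
  rw [dif_pos h]
  have h1 := h.choose_spec
  have h2 : h.choose = i := (hinj _ _ hi h1.1 h1.2).symm
  rw [h2]

end

lemma npt_inj {N x y : ℕ} (hN : 0 < N) (hx : x < N) (hy : y < N) (h : npt hN x = npt hN y) :
    x = y := by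
  have := congrArg Fin.val h
  simp only [npt] at this
  rwa [Nat.mod_eq_of_lt hx, Nat.mod_eq_of_lt hy] at this

/-- The surgery. -/
theorem ext_sur {D : ℕ} {S : Md Rel c m M} [Fintype M] {a : ℕ → M} {B s L Q r : ℕ}
    (hstep : ∀ i, i + 1 < B → S.f (a i) = a (i + 1))
    (hinj : ∀ i j, i < B → j < B → a i = a j → i = j)
    (hcon : ∀ i, i < B → ∀ j, a i ≠ S.con j)
    (hpre : ∀ i, i + 1 < B → ∀ y, S.f y = a (i + 1) → y = a i)
    (hr : c0 c m D < r) (hL : 4 * r ≤ L) (hs : 2 * r ≤ s) (ht : s + L + 2 * r ≤ B)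
    (hSel : ∀ l (ρ : Rel l) (τ τ' : Fin l → M), (∀ k,
      (∃ e, e < 4 * r ∧ τ k = a (s + L - 2 * r + e) ∧ τ' k = a (s - 2 * r + e)) ∨
      (τ k = τ' k ∧ (∃ e, e < 4 * r ∧ τ k ∈ S.Cl D (a (s + L - 2 * r + e))) ∧
        ∃ e, e < 4 * r ∧ τ k ∈ S.Cl D (a (s - 2 * r + e)))) → (S.R l ρ τ ↔ S.R l ρ τ')) :
    Ext D S (Fintype.card M + L * Q) := by
  classical
  have hr0 : 0 < r := by omega
  have hB : 0 < B := by omega
  set N : ℕ := B + L * Q with hNdef
  have hN : 0 < N := by omega
  -- the function
  let f' : NewM a B N → NewM a B N := fun x' => match x' with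
    | Sum.inl y => sg hN (fun _ => 0) (S.f y.1)
    | Sum.inr j => if (j : ℕ) + 1 < N then Sum.inr (npt hN ((j : ℕ) + 1)) else
        sg hN (fun _ => 0) (S.f (a (B - 1)))
  -- the data
  have data : ∀ x' : NewM a B N, ∃ (x : M) (sh : ℕ → ℕ) (ρ q : ℕ), q ≤ Q ∧ sg hN sh x = x' ∧
      (∀ i, i < B → (sh i = 0 ∧ i + r < s + L) ∨ (sh i = L * Q ∧ s + r ≤ i) ∨
        ((sh i = L * q ∧ ρ < i + r ∧ i < ρ + r ∧ s ≤ ρ ∧ ρ < s + L) ∧ x = a ρ)) ∧
      (∀ i, i + 1 < B → a i ∈ S.Cl D x → a (i + 1) ∈ S.Cl D x → sh i = sh (i + 1)) ∧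
      sh 0 = 0 ∧ sh (B - 1) = L * Q := by
    -- the default shift
    have hdef : ∀ x : M, ∃ cut, s + r ≤ cut ∧ cut + r < s + L ∧ a cut ∉ S.Cl D x := by
      intro x
      obtain ⟨i, h1, h2, h3⟩ := S.exists_missing D x a (s + r) (L - 2 * r) (by omega)
        (fun i j h1 h2 h3 h4 h5 => hinj i j (by omega) (by omega) h5)
      exact ⟨i, h1, by omega, h3⟩
    have hdat : ∀ (x : M) (cut : ℕ), s + r ≤ cut → cut + r < s + L → a cut ∉ S.Cl D x →
        (∀ i, i < B → ((if i ≤ cut then 0 else L * Q) = 0 ∧ i + r < s + L) ∨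
          ((if i ≤ cut then 0 else L * Q) = L * Q ∧ s + r ≤ i)) ∧
        (∀ i, i + 1 < B → a i ∈ S.Cl D x → a (i + 1) ∈ S.Cl D x →
          (if i ≤ cut then 0 else L * Q) = (if i + 1 ≤ cut then 0 else L * Q)) ∧
        (if 0 ≤ cut then 0 else L * Q) = 0 ∧ (if B - 1 ≤ cut then 0 else L * Q) = L * Q := by
      intro x cut h1 h2 h3
      refine ⟨fun i hi => ?_, fun i hi h4 h5 => ?_, by simp, ?_⟩
      · by_cases h : i ≤ cut
        · left; rw [if_pos h]; exact ⟨rfl, by omega⟩
        · right; rw [if_neg h]; exact ⟨rfl, by omega⟩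
      · by_cases h : i ≤ cut
        · rw [if_pos h]
          rw [if_pos]
          by_contra h6
          have : i = cut := by omega
          rw [this] at h4
          exact h3 h4
        · rw [if_neg h, if_neg (by omega)]
      · rw [if_neg (by omega)]
    rintro (y | j)
    · obtain ⟨cut, h1, h2, h3⟩ := hdef y.1
      obtain ⟨d1, d2, d3, d4⟩ := hdat y.1 cut h1 h2 h3
      refine ⟨y.1, fun i => if i ≤ cut then 0 else L * Q, 0, 0, Nat.zero_le _, ?_, ?_, d2, d3, d4⟩
      · rw [sg_out hN _ _ y.2]
      · intro i hi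
        rcases d1 i hi with h | h
        · exact Or.inl h
        · exact Or.inr (Or.inl h)
    · have hjN := j.2
      by_cases hj1 : (j : ℕ) < s
      · obtain ⟨cut, h1, h2, h3⟩ := hdef (a j)
        obtain ⟨d1, d2, d3, d4⟩ := hdat (a j) cut h1 h2 h3
        refine ⟨a j, fun i => if i ≤ cut then 0 else L * Q, 0, 0, Nat.zero_le _, ?_, ?_, d2, d3, d4⟩
        · rw [sg_in hN hinj _ (by omega)]
          simp only [if_pos (show (j : ℕ) ≤ cut by omega)]
          congr 1
          apply Fin.ext
          simp only [npt, Nat.add_zero]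
          exact Nat.mod_eq_of_lt j.2
        · intro i hi
          rcases d1 i hi with h | h
          · exact Or.inl h
          · exact Or.inr (Or.inl h)
      · by_cases hj2 : s + L + L * Q ≤ (j : ℕ)
        · obtain ⟨cut, h1, h2, h3⟩ := hdef (a (j - L * Q))
          obtain ⟨d1, d2, d3, d4⟩ := hdat (a (j - L * Q)) cut h1 h2 h3
          refine ⟨a (j - L * Q), fun i => if i ≤ cut then 0 else L * Q, 0, 0, Nat.zero_le _, ?_, ?_,
            d2, d3, d4⟩
          · rw [sg_in hN hinj _ (by omega)]
            simp only [if_neg (show ¬ (j : ℕ) - L * Q ≤ cut by omega)]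
            congr 1
            apply Fin.ext
            simp only [npt]
            rw [Nat.mod_eq_of_lt (by omega)]
            omega
          · intro i hi
            rcases d1 i hi with h | h
            · exact Or.inl h
            · exact Or.inr (Or.inl h)
        · -- a point of the stretched segment
          have hL0 : 0 < L := by omega
          set q := ((j : ℕ) - s) / L with hq
          set e := ((j : ℕ) - s) % L with he
          have hqe : L * q + e = (j : ℕ) - s := Nat.div_add_mod _ _
          have hel : e < L := Nat.mod_lt _ hL0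
          have hqQ : q ≤ Q := by
            by_contra hcon
            push Not at hcon
            have : L * (Q + 1) ≤ L * q := Nat.mul_le_mul_left _ hcon
            rw [Nat.mul_add, Nat.mul_one] at this
            omega
          set x := a (s + e) with hx
          obtain ⟨cut, h1, h2, h3⟩ := hdef x
          obtain ⟨p1, l1, l2, l3⟩ := S.exists_missing D x a (s + e - r) r hr
            (fun i j h1 h2 h3 h4 h5 => hinj i j (by omega) (by omega) h5)
          obtain ⟨p2, k1, k2, k3⟩ := S.exists_missing D x a (s + e + 1) r hr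
            (fun i j h1 h2 h3 h4 h5 => hinj i j (by omega) (by omega) h5)
          refine ⟨x, fun i => if p1 < i ∧ i < p2 then L * q else if i ≤ cut then 0 else L * Q,
            s + e, q, hqQ, ?_, ?_, ?_, ?_, ?_⟩
          · rw [hx, sg_in hN hinj _ (by omega)]
            simp only [if_pos (show p1 < s + e ∧ s + e < p2 by omega)]
            congr 1
            apply Fin.ext
            simp only [npt]
            rw [Nat.mod_eq_of_lt (by omega)]
            omega
          · intro i hi
            by_cases h : p1 < i ∧ i < p2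
            · right; right
              simp only [if_pos h]
              exact ⟨⟨by simp, by omega, by omega, by omega, by omega⟩, rfl⟩
            · simp only [if_neg h]
              by_cases h' : i ≤ cut
              · left; rw [if_pos h']; exact ⟨rfl, by omega⟩
              · right; left; rw [if_neg h']; exact ⟨rfl, by omega⟩
          · intro i hi h4 h5
            by_cases h : p1 < i ∧ i < p2
            · by_cases h' : p1 < i + 1 ∧ i + 1 < p2
              · simp only [if_pos h, if_pos h']
              · exfalso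
                have : i + 1 = p2 := by omega
                rw [this] at h5
                exact k3 h5
            · by_cases h' : p1 < i + 1 ∧ i + 1 < p2
              · exfalso
                have : i = p1 := by omega
                rw [this] at h4
                exact l3 h4
              · simp only [if_neg h, if_neg h']
                by_cases h'' : i ≤ cut
                · rw [if_pos h'', if_pos]
                  by_contra h6
                  have : i = cut := by omega
                  rw [this] at h4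
                  exact h3 h4
                · rw [if_neg h'', if_neg (by omega)]
          · simp only
            rw [if_neg (by omega), if_pos (by omega)]
          · simp only
            rw [if_neg (by omega), if_neg (by omega)]
  choose pi sh ρ q hqQ hpt hopt hsh hsh0 hshB using data
  have hbd : ∀ x' i, i < B → i + sh x' i < N := by
    intro x' i hi
    have h1 : L * q x' ≤ L * Q := Nat.mul_le_mul_left _ (hqQ x')
    rcases hopt x' i hi with h | h | h <;> omega
  -- the two window positions
  have hwin : ∀ y : M, (∀ i, i < B → y ≠ a i) ∨ ∃ i, i < B ∧ y = a i := by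
    intro y
    by_cases h : ∃ i, i < B ∧ y = a i
    · exact Or.inr h
    · push Not at h
      exact Or.inl h
  have hkey : ∀ x' x'' i i', i < B → i' < B →
      sg (a := a) (B := B) hN (sh x') (a i) = sg (a := a) (B := B) hN (sh x'') (a i') →
      i = i' ∨
      (q x'' = q x' + 1 ∧ i = i' + L ∧
        (ρ x' < i + r ∧ i < ρ x' + r ∧ s ≤ ρ x' ∧ ρ x' < s + L) ∧
        (ρ x'' < i' + r ∧ i' < ρ x'' + r ∧ s ≤ ρ x'' ∧ ρ x'' < s + L) ∧
        pi x' = a (ρ x') ∧ pi x'' = a (ρ x'')) ∨
      (q x' = q x'' + 1 ∧ i' = i + L ∧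
        (ρ x' < i + r ∧ i < ρ x' + r ∧ s ≤ ρ x' ∧ ρ x' < s + L) ∧
        (ρ x'' < i' + r ∧ i' < ρ x'' + r ∧ s ≤ ρ x'' ∧ ρ x'' < s + L) ∧
        pi x' = a (ρ x') ∧ pi x'' = a (ρ x'')) := by
    intro x' x'' i i' hi hi' h
    rw [sg_in hN hinj _ hi, sg_in hN hinj _ hi'] at h
    have h1 := npt_inj hN (hbd x' i hi) (hbd x'' i' hi') (Sum.inr_injective h)
    have o : Opt s L Q r (ρ x') (q x') i (sh x' i) := by
      rcases hopt x' i hi with h | h | h
      · exact Or.inl h
      · exact Or.inr (Or.inl h)
      · exact Or.inr (Or.inr h.1)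
    have o' : Opt s L Q r (ρ x'') (q x'') i' (sh x'' i') := by
      rcases hopt x'' i' hi' with h | h | h
      · exact Or.inl h
      · exact Or.inr (Or.inl h)
      · exact Or.inr (Or.inr h.1)
    have hLq : ∀ k, k = 0 ∨ L ≤ L * k := by
      intro k
      rcases Nat.eq_zero_or_pos k with h | h
      · exact Or.inl h
      · exact Or.inr (Nat.le_mul_of_pos_right L h)
    by_cases hii : i = i'
    · exact Or.inl hii
    -- both are near
    have hn1 : pi x' = a (ρ x') ∧ pi x'' = a (ρ x'') := by
      rcases arith_aux hL hr0 (hqQ x') (hqQ x'') h1 o o' with h2 | h2 | h2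
      · exact absurd h2 hii
      · obtain ⟨g1, g2, g3, g4⟩ := h2
        have g5 : L * q x'' = L * q x' + L := by rw [g1, Nat.mul_add, Nat.mul_one]
        have g6 : L * q x'' ≤ L * Q := Nat.mul_le_mul_left _ (hqQ x'')
        constructor
        · rcases hopt x' i hi with h | h | h
          · omega
          · have : sh x'' i' = L * Q + L := by omega
            rcases hopt x'' i' hi' with h' | h' | h' <;> omega
          · exact h.2
        · rcases hopt x'' i' hi' with h | h | h
          · omega
          · omega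
          · exact h.2
      · obtain ⟨g1, g2, g3, g4⟩ := h2
        have g5 : L * q x' = L * q x'' + L := by rw [g1, Nat.mul_add, Nat.mul_one]
        have g6 : L * q x' ≤ L * Q := Nat.mul_le_mul_left _ (hqQ x')
        constructor
        · rcases hopt x' i hi with h | h | h
          · omega
          · omega
          · exact h.2
        · rcases hopt x'' i' hi' with h | h | h
          · omega
          · have : sh x' i = L * Q + L := by omega
            rcases hopt x' i hi with h' | h' | h' <;> omega
          · exact h.2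
    rcases arith_aux hL hr0 (hqQ x') (hqQ x'') h1 o o' with h2 | h2 | h2
    · exact Or.inl h2
    · exact Or.inr (Or.inl ⟨h2.1, h2.2.1, h2.2.2.1, h2.2.2.2, hn1⟩)
    · exact Or.inr (Or.inr ⟨h2.1, h2.2.1, h2.2.2.1, h2.2.2.2, hn1⟩)
  have hcard : Fintype.card (NewM a B N) = Fintype.card M + L * Q := by
    rw [Fintype.card_sum, Fintype.card_fin, hNdef]
    have h1 : Fintype.card {y : M // ∀ i, i < B → y ≠ a i} =
        Fintype.card M - B := by
      have h2 : Fintype.card {y : M // ¬ ∀ i, i < B → y ≠ a i} = B := by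
        rw [Fintype.card_subtype]
        have h3 : (Finset.univ.filter fun y : M => ¬ ∀ i, i < B → y ≠ a i) =
            (Finset.range B).image a := by
          ext y
          simp only [Finset.mem_filter, Finset.mem_univ, true_and, Finset.mem_image,
            Finset.mem_range]
          push Not
          exact ⟨fun ⟨i, h1, h2⟩ => ⟨i, h1, h2.symm⟩, fun ⟨i, h1, h2⟩ => ⟨i, h1, h2.symm⟩⟩
        rw [h3, Finset.card_image_of_injOn, Finset.card_range]
        intro i hi j hj hij
        exact hinj i j (by simpa using hi) (by simpa using hj) hij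
      have h4 := Fintype.card_subtype_compl (fun y : M => ∀ i, i < B → y ≠ a i)
      have h5 := Fintype.card_subtype_le (fun y : M => ∀ i, i < B → y ≠ a i)
      omega
    have h2 : B ≤ Fintype.card M := by
      have := Fintype.card_le_of_injective (fun i : Fin B => a i)
        (fun i j h => Fin.ext (hinj i j i.2 j.2 h))
      rwa [Fintype.card_fin] at this
    rw [h1]
    omega
  rw [← hcard]
  -- values of the zero shift
  have hzero : ∀ y : M, (∀ i, i + 1 < B → y ≠ a (i + 1)) → ∀ x',
      sg (a := a) (B := B) hN (fun _ => 0) y = sg hN (sh x') y := by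
    intro y hy x'
    rcases hwin y with h | ⟨i, hi, rfl⟩
    · rw [sg_out hN _ _ h, sg_out hN _ _ h]
    · rw [sg_in hN hinj _ hi, sg_in hN hinj _ hi]
      rcases i with _ | i
      · rw [hsh0 x']
      · exact absurd rfl (hy i hi)
  refine ext_of_lifts D S f' (fun i => Sum.inl ⟨S.con i, fun j hj h => hcon j hj i h.symm⟩)
    pi (fun x' => sg hN (sh x')) hpt ?_ ?_ ?_ ?_
  · intro x' i
    exact sg_out hN _ _ _
  · intro x' i k hk
    have hy : S.f^[k] (S.bs (pi x') i) ∈ S.Cl D (pi x') := ⟨i, k, hk.le, rfl⟩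
    have hfy : S.f^[k + 1] (S.bs (pi x') i) ∈ S.Cl D (pi x') := ⟨i, k + 1, hk, rfl⟩
    rw [Function.iterate_succ_apply'] at hfy ⊢
    set y := S.f^[k] (S.bs (pi x') i) with hydef
    rcases hwin y with h | ⟨i0, hi0, h⟩
    · rw [sg_out hN _ _ h]
      show sg hN (sh x') (S.f y) = sg hN (fun _ => 0) (S.f y)
      refine (hzero _ (fun i1 hi1 he => ?_) x').symm
      exact h i1 (by omega) (hpre i1 hi1 y he)
    · rw [h] at hy hfy ⊢
      rw [sg_in hN hinj _ hi0]
      have hb := hbd x' i0 hi0
      by_cases hlast : i0 + 1 < B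
      · rw [hstep i0 hlast] at hfy ⊢
        rw [sg_in hN hinj _ hlast]
        have h1 := hsh x' i0 hlast hy hfy
        have h2 := hbd x' (i0 + 1) hlast
        show Sum.inr (npt hN (i0 + 1 + sh x' (i0 + 1))) =
          (if ((npt hN (i0 + sh x' i0) : Fin N) : ℕ) + 1 < N then
            (Sum.inr (npt hN (((npt hN (i0 + sh x' i0) : Fin N) : ℕ) + 1)) : NewM a B N) else
            sg hN (fun _ => 0) (S.f (a (B - 1))))
        have h3 : ((npt hN (i0 + sh x' i0) : Fin N) : ℕ) = i0 + sh x' i0 := Nat.mod_eq_of_lt hb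
        rw [h3, if_pos (by omega)]
        congr 2
        omega
      · have hi1 : i0 = B - 1 := by omega
        subst hi1
        have h3 : ((npt hN (B - 1 + sh x' (B - 1)) : Fin N) : ℕ) = B - 1 + sh x' (B - 1) :=
          Nat.mod_eq_of_lt hb
        show sg hN (sh x') (S.f (a (B - 1))) =
          (if ((npt hN (B - 1 + sh x' (B - 1)) : Fin N) : ℕ) + 1 < N then
            (Sum.inr (npt hN (((npt hN (B - 1 + sh x' (B - 1)) : Fin N) : ℕ) + 1)) : NewM a B N) else
            sg hN (fun _ => 0) (S.f (a (B - 1))))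
        rw [h3, hshB x', if_neg (by omega)]
        refine (hzero _ (fun i1 hi1 he => ?_) x').symm
        have := hinj _ _ (by omega) (by omega) (hpre i1 hi1 _ he)
        omega
  · intro x' y z hy hz h
    rcases hwin y with h1 | ⟨i, hi, rfl⟩ <;> rcases hwin z with h2 | ⟨i', hi', rfl⟩
    · rw [sg_out hN _ _ h1, sg_out hN _ _ h2] at h
      exact congrArg Subtype.val (Sum.inl_injective h)
    · rw [sg_out hN _ _ h1, sg_in hN hinj _ hi'] at h
      exact absurd h (by simp)
    · rw [sg_out hN _ _ h2, sg_in hN hinj _ hi] at h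
      exact absurd h (by simp)
    · rcases hkey x' x' i i' hi hi' h with h3 | h3 | h3
      · rw [h3]
      · omega
      · omega
  · intro x' x'' l R0 τ τ' hτ hτ' hT
    by_cases hall : ∀ k, τ k = τ' k
    · intro h
      rwa [show τ = τ' from funext hall]
    push Not at hall
    obtain ⟨k0, hk0⟩ := hall
    have hpair : ∀ k, τ k = τ' k ∨ ∃ i i', i < B ∧ i' < B ∧ τ k = a i ∧ τ' k = a i' ∧ i ≠ i' := by
      intro k
      have h := hT k
      rcases hwin (τ k) with h1 | ⟨i, hi, h1⟩ <;> rcases hwin (τ' k) with h2 | ⟨i', hi', h2⟩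
      · rw [sg_out hN _ _ h1, sg_out hN _ _ h2] at h
        exact Or.inl (congrArg Subtype.val (Sum.inl_injective h))
      · rw [sg_out hN _ _ h1, h2, sg_in hN hinj _ hi'] at h
        exact absurd h (by simp)
      · rw [sg_out hN _ _ h2, h1, sg_in hN hinj _ hi] at h
        exact absurd h (by simp)
      · by_cases hii : i = i'
        · left; rw [h1, h2, hii]
        · exact Or.inr ⟨i, i', hi, hi', h1, h2, hii⟩
    obtain ⟨i0, i0', hi0, hi0', e0, e0', hne0⟩ := (hpair k0).resolve_left hk0
    have hT0 := hT k0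
    simp only [e0, e0'] at hT0
    rcases hkey x' x'' i0 i0' hi0 hi0' hT0 with h3 | h3 | h3
    · exact absurd h3 hne0
    · obtain ⟨g1, g2, g3, g4, g5, g6⟩ := h3
      refine (hSel l R0 τ τ' (fun k => ?_)).2
      rcases hpair k with hk | ⟨i, i', hi, hi', e1, e2, hne⟩
      · right
        refine ⟨hk, ⟨ρ x' - (s + L - 2 * r), by omega, ?_⟩, ⟨ρ x'' - (s - 2 * r), by omega, ?_⟩⟩
        · have h5 := hτ k
          rw [g5] at h5
          have h6 : s + L - 2 * r + (ρ x' - (s + L - 2 * r)) = ρ x' := by omega
          rw [h6]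
          exact h5
        · have h5 := hτ' k
          rw [g6] at h5
          have h6 : s - 2 * r + (ρ x'' - (s - 2 * r)) = ρ x'' := by omega
          rw [h6, hk]
          exact h5
      · left
        have hTk := hT k
        simp only [e1, e2] at hTk
        rcases hkey x' x'' i i' hi hi' hTk with h4 | h4 | h4
        · exact absurd h4 hne
        · refine ⟨i - (s + L - 2 * r), by omega, ?_, ?_⟩
          · rw [e1]; congr 1; omega
          · rw [e2]; congr 1; omega
        · omega
    · obtain ⟨g1, g2, g3, g4, g5, g6⟩ := h3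
      refine (hSel l R0 τ' τ (fun k => ?_)).1
      rcases hpair k with hk | ⟨i, i', hi, hi', e1, e2, hne⟩
      · right
        refine ⟨hk.symm, ⟨ρ x'' - (s + L - 2 * r), by omega, ?_⟩, ⟨ρ x' - (s - 2 * r), by omega, ?_⟩⟩
        · have h5 := hτ' k
          rw [g6] at h5
          have h6 : s + L - 2 * r + (ρ x'' - (s + L - 2 * r)) = ρ x'' := by omega
          rw [h6]
          exact h5
        · have h5 := hτ k
          rw [g5] at h5
          have h6 : s - 2 * r + (ρ x' - (s - 2 * r)) = ρ x' := by omega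
          rw [h6, ← hk]
          exact h5
      · left
        have hTk := hT k
        simp only [e1, e2] at hTk
        rcases hkey x' x'' i i' hi hi' hTk with h4 | h4 | h4
        · exact absurd h4 hne
        · omega
        · refine ⟨i' - (s + L - 2 * r), by omega, ?_, ?_⟩
          · rw [e2]; congr 1; omega
          · rw [e1]; congr 1; omega

end Pool.Agent.Helper74.PV
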