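import Pool.Agent.Helper74.PV.Lg
import Pool.Agent.Helper74.PV.Sel

/-!
# Shelah's class: the spectra are closed under adding a fixed number
-/

set_option autoImplicit false

namespace Pool.Agent.Helper74.PV

open FirstOrder FirstOrder.Language Pool.Agent.Helper20.Spectra Pool.Agent.Helper20.OP
  Pool.Agent.Helper29.Prefix Pool.Agent.Helper20.PV

/-- normal form of a prefix with exactly one universal quantifier -/
lemma preQ_one' {M : Type} {q : ℕ → Bool} (s m : ℕ) (hs : q s = true) (h0 : ∀ i, i < s → q i = false)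
    (h1 : ∀ i, s + 1 ≤ i → i < s + 1 + m → q i = false) (P : (Fin (s + 1 + m) → M) → Prop) :
    preQ q (s + 1 + m) P ↔ ∃ x : Fin s → M, ∀ y : M, ∃ z : Fin m → M,
      P (Fin.append (Fin.snoc x y : Fin (s + 1) → M) z) := by
  rw [preQ_suf (s + 1) m h1]
  show preQ q s (fun v => if q s = true then (∀ x : M, ∃ z : Fin m → M,
    P (Fin.append (Fin.snoc v x : Fin (s + 1) → M) z)) else
      ∃ x : M, ∃ z : Fin m → M, P (Fin.append (Fin.snoc v x : Fin (s + 1) → M) z)) ↔ _
  rw [preQ_ex s h0]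
  simp only [hs, if_true]

theorem t3_aux {q : ℕ → Bool} {s m k : ℕ} {ar : Fin k → ℕ} {mon : Bool} {A : Set ℕ}
    (hA : VocSpectrum q (s + 1 + m) ar mon A) (hs : q s = true) (h0 : ∀ i, i < s → q i = false)
    (h1 : ∀ i, s + 1 ≤ i → i < s + 1 + m → q i = false) (hB : ∀ i, ar i ≤ 1)
    (hB2 : ∀ i j, ar i = 1 → ar j = 1 → i = j) :
    ∃ p N0 : ℕ, 1 ≤ p ∧ ∀ n, N0 ≤ n → n ∈ A → n + p ∈ A := by
  classical
  obtain ⟨Rel, hR, hmon, P, ⟨ψ, hψ, hP⟩, rfl⟩ := hA.exists_ex
  obtain ⟨D, hD⟩ := transfer hB ψ hψ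
  set c : ℕ := Fintype.card ({j : Fin k // ar j = 0} ⊕ Fin s) with hc
  let e : ({j : Fin k // ar j = 0} ⊕ Fin s) ≃ Fin c := Fintype.equivFin _
  obtain ⟨p, hp, N0, hN⟩ := ext_core Rel c m D
  refine ⟨p, N0, hp, fun n hn hnA => ?_⟩
  obtain ⟨hn1, M, hM, S, hcard, hpre⟩ := hnA
  rw [preQ_one' s m hs h0 h1] at hpre
  obtain ⟨x0, hpre⟩ := hpre
  choose w hw using hpre
  -- the function
  obtain ⟨f, hf⟩ : ∃ f : M → M, IsF S f := by
    by_cases hu : ∃ u, ar u = 1
    · obtain ⟨u, hu⟩ := hu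
      refine ⟨fun x => fn S u (fun _ => x), fun i h a => ?_⟩
      have hiu := hB2 i u h hu
      subst hiu
      show fn S i a = fn S i (fun _ => a (Fin.cast h.symm 0))
      congr 1
      funext j
      congr 1
      apply Fin.ext
      have := j.2
      show (j : ℕ) = 0
      omega
    · exact ⟨id, fun i h => absurd ⟨i, h⟩ hu⟩
  let T : Md Rel c m M := ⟨f, fun i => Sum.elim (cst S) x0 (e.symm i), w, fun l ρ a => rl S ρ a⟩
  obtain ⟨M', hM', f', con', R', hcard', hlift⟩ := hN M hM T (by omega)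
  let S' : (voc ar Rel).Structure M' := mkV (fun i a => if h : ar i = 1 then
    f' (a (Fin.cast h.symm 0)) else con' (e (Sum.inl ⟨i, by have := hB i; omega⟩))) R'
  have hf' : IsF S' f' := by
    intro i h a
    show (if h : ar i = 1 then f' (a (Fin.cast h.symm 0)) else
      con' (e (Sum.inl ⟨i, by have := hB i; omega⟩))) = _
    rw [dif_pos h]
  have hcst' : ∀ j, cst S' j = con' (e (Sum.inl j)) := by
    intro j
    show (if h : ar j.1 = 1 then f' _ else con' (e (Sum.inl ⟨j.1, _⟩))) = _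
    rw [dif_neg (by rw [j.2]; omega)]
  refine ⟨by omega, M', hM', S', by rw [hcard', hcard], ?_⟩
  rw [preQ_one' s m hs h0 h1]
  refine ⟨fun i => con' (e (Sum.inr i)), fun y' => ?_⟩
  obtain ⟨y, σ, hσ⟩ := hlift y'
  have hcon : ∀ u, σ (Sum.elim (cst S) x0 u) = con' (e u) := by
    intro u
    have := hσ.con (e u)
    change σ (Sum.elim (cst S) x0 (e.symm (e u))) = _ at this
    rwa [Equiv.symm_apply_apply] at this
  refine ⟨fun j => σ (w y j), ?_⟩
  -- the variables
  set v : Fin (s + 1 + m) → M := Fin.append (Fin.snoc x0 y : Fin (s + 1) → M) (w y) with hv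
  have hvar : (Fin.append (Fin.snoc (fun i => con' (e (Sum.inr i))) y' : Fin (s + 1) → M')
      (fun j => σ (w y j))) = fun i => σ (v i) := by
    funext i
    refine Fin.addCases (fun i => ?_) (fun i => ?_) i
    · rw [hv, Fin.append_left, Fin.append_left]
      refine Fin.lastCases ?_ (fun i => ?_) i
      · rw [Fin.snoc_last, Fin.snoc_last]
        exact hσ.pt.symm
      · rw [Fin.snoc_castSucc, Fin.snoc_castSucc]
        exact (hcon (Sum.inr i)).symm
    · rw [hv, Fin.append_right, Fin.append_right]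
  rw [hvar]
  -- the base points
  have hbp : ∀ b, ∃ i, bp S v b = T.bs y i := by
    rintro (i | j)
    · refine Fin.addCases (fun i => ?_) (fun i => ?_) i
      · refine Fin.lastCases ?_ (fun i => ?_) i
        · refine ⟨none, ?_⟩
          show v _ = y
          rw [hv, Fin.append_left, Fin.snoc_last]
        · refine ⟨some (Sum.inr (e (Sum.inr i))), ?_⟩
          show v _ = Sum.elim (cst S) x0 (e.symm (e (Sum.inr i)))
          rw [hv, Fin.append_left, Fin.snoc_castSucc, Equiv.symm_apply_apply]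
          rfl
      · refine ⟨some (Sum.inl i), ?_⟩
        show v _ = w y i
        rw [hv, Fin.append_right]
    · refine ⟨some (Sum.inr (e (Sum.inl j))), ?_⟩
      show cst S j = Sum.elim (cst S) x0 (e.symm (e (Sum.inl j)))
      rw [Equiv.symm_apply_apply]
      rfl
  have hfin := hD M M' S S' f f' v σ hf hf' (fun j => by rw [hcst' j]; exact hcon (Sum.inl j))
    (fun b d hd => by
      obtain ⟨i, hi⟩ := hbp b
      rw [hi]
      exact hσ.step i d hd)
    (fun b d b' d' hd hd' h => by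
      obtain ⟨i, hi⟩ := hbp b
      obtain ⟨i', hi'⟩ := hbp b'
      exact hσ.inj _ _ ⟨i, d, hd, by rw [hi]⟩ ⟨i', d', hd', by rw [hi']⟩ h)
    (fun l ρ τ h => by
      refine hσ.rel l ρ τ (fun i => ?_)
      obtain ⟨b, d, hd, hb⟩ := h i
      obtain ⟨i', hi'⟩ := hbp b
      exact ⟨i', d, hd, by rw [hb, hi']⟩)
  exact (hP M' S' _).1 (hfin.2 ((hP M S v).2 (hw y)))

/-- Shelah's class. -/
theorem t3 {q : ℕ → Bool} {r k : ℕ} {ar : Fin k → ℕ} {mon : Bool} {A : Set ℕ}
    (hA : VocSpectrum q r ar mon A) (h0 : HasA q r) (h1 : ¬ HasAA q r) (hB : ¬ Big ar) :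
    ∃ p N0 : ℕ, 1 ≤ p ∧ ∀ n, N0 ≤ n → n ∈ A → n + p ∈ A := by
  obtain ⟨s, hs, hqs⟩ := h0
  obtain ⟨m, rfl⟩ := Nat.exists_eq_add_of_lt hs
  have e : s + m + 1 = s + 1 + m := by ring
  rw [e] at hA h1
  unfold Big at hB
  push Not at hB
  refine t3_aux hA hqs (fun i hi => ?_) (fun i hi hi' => ?_) (fun i => ?_) (fun i j hi hj => ?_)
  · by_contra h
    exact h1 ⟨i, s, hi, by omega, by simpa using h, hqs⟩
  · by_contra h
    exact h1 ⟨s, i, by omega, hi', hqs, by simpa using h⟩
  · have := hB.1 i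
    omega
  · by_contra h
    have := hB.2 i j h (by omega)
    omega

end Pool.Agent.Helper74.PV
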